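import Mathlib

set_option autoImplicit false

namespace Pool.Agent.Results.MP_2f2576_co.NoLonely

open SimpleGraph

/-- (i): every vertex meets at most two edges of each colour. -/
def AtMostTwoPerColour {V C : Type} (G : SimpleGraph V) (c : Sym2 V → C) : Prop :=
  ∀ (v : V) (a : C), {e : Sym2 V | e ∈ G.edgeSet ∧ v ∈ e ∧ c e = a}.encard ≤ 2

/-- (ii): in every circuit, at least two edges have the same colour. -/
def NoPied {V C : Type} (G : SimpleGraph V) (c : Sym2 V → C) : Prop :=
  ∀ (v : V) (w : G.Walk v v), w.IsCycle → ∃ e ∈ w.edges, ∃ f ∈ w.edges, f ≠ e ∧ c f = c e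

/-- (iii): in every circuit, each edge has the same colour as some other edge of it. -/
def NoLonelyColour {V C : Type} (G : SimpleGraph V) (c : Sym2 V → C) : Prop :=
  ∀ (v : V) (w : G.Walk v v), w.IsCycle → ∀ e ∈ w.edges, ∃ f ∈ w.edges, f ≠ e ∧ c f = c e

/-- `G` is a no pied circuit graph. -/
def IsNoPiedCircuitGraph {V : Type} (G : SimpleGraph V) : Prop :=
  ∃ (C : Type) (c : Sym2 V → C), AtMostTwoPerColour G c ∧ NoPied G c

/-- `G` is a no lonely colour graph. -/
def IsNoLonelyColourGraph {V : Type} (G : SimpleGraph V) : Prop :=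
  ∃ (C : Type) (c : Sym2 V → C), AtMostTwoPerColour G c ∧ NoLonelyColour G c

section construction

variable {N q : ℕ}

/-- the graph of a choice of one (ordered) pair on each line of the grid -/
def gr (p : Fin (N + 1) × (Fin N → Fin q) → Fin q × Fin q) :
    SimpleGraph (Fin (N + 1) → Fin q) where
  Adj x y := x ≠ y ∧ ∃ i : Fin (N + 1), i.removeNth x = i.removeNth y ∧
    s(x i, y i) = s((p (i, i.removeNth x)).1, (p (i, i.removeNth x)).2)
  symm := ⟨by
    rintro x y ⟨h, i, h1, h2⟩
    refine ⟨h.symm, i, h1.symm, ?_⟩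
    rw [← h1, Sym2.eq_swap]
    exact h2⟩
  loopless := ⟨by
    rintro x ⟨h, _⟩
    exact h rfl⟩

/-- the colour of an edge: the set of coordinates in which its ends differ -/
def col : Sym2 (Fin (N + 1) → Fin q) → Set (Fin (N + 1)) :=
  Sym2.lift ⟨fun x y => {i | x i ≠ y i}, by
    intro x y
    ext i
    exact ne_comm⟩

lemma col_mk (x y : Fin (N + 1) → Fin q) : col s(x, y) = {i | x i ≠ y i} := rfl

lemma diff_of_removeNth {x y : Fin (N + 1) → Fin q} {i : Fin (N + 1)} (hxy : x ≠ y)
    (h : i.removeNth x = i.removeNth y) : {j | x j ≠ y j} = {i} := by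
  have h1 : ∀ j, j ≠ i → x j = y j := by
    intro j hj
    obtain ⟨k, rfl⟩ := Fin.exists_succAbove_eq hj
    have := congrFun h k
    simpa [Fin.removeNth] using this
  ext j
  simp only [Set.mem_setOf_eq, Set.mem_singleton_iff]
  constructor
  · intro hj
    by_contra hne
    exact hj (h1 j hne)
  · rintro rfl hj
    apply hxy
    funext k
    by_cases hk : k = j
    · rw [hk]; exact hj
    · exact h1 k hk

lemma adj_col {p : Fin (N + 1) × (Fin N → Fin q) → Fin q × Fin q} {x y : Fin (N + 1) → Fin q}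
    (h : (gr p).Adj x y) : ∃ i, col s(x, y) = {i} ∧ i.removeNth x = i.removeNth y ∧
    s(x i, y i) = s((p (i, i.removeNth x)).1, (p (i, i.removeNth x)).2) := by
  obtain ⟨hne, i, h1, h2⟩ := h
  exact ⟨i, by rw [col_mk]; exact diff_of_removeNth hne h1, h1, h2⟩

lemma two (p : Fin (N + 1) × (Fin N → Fin q) → Fin q × Fin q) :
    AtMostTwoPerColour (gr p) (col (N := N) (q := q)) := by
  intro v a
  refine le_trans ?_ (show (1 : ℕ∞) ≤ 2 by norm_num)
  rw [Set.encard_le_one_iff]
  have key : ∀ e, e ∈ {e : Sym2 (Fin (N + 1) → Fin q) | e ∈ (gr p).edgeSet ∧ v ∈ e ∧ col e = a} →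
      ∃ (u : Fin (N + 1) → Fin q) (i : Fin (N + 1)), e = s(v, u) ∧ a = {i} ∧
        i.removeNth v = i.removeNth u ∧
        s(v i, u i) = s((p (i, i.removeNth v)).1, (p (i, i.removeNth v)).2) := by
    rintro e ⟨h1, h2, h3⟩
    obtain ⟨u, rfl⟩ := h2
    rw [SimpleGraph.mem_edgeSet] at h1
    obtain ⟨i, h4, h5, h6⟩ := adj_col h1
    exact ⟨u, i, rfl, by rw [← h3, h4], h5, h6⟩
  intro e f he hf
  obtain ⟨u, i, rfl, hi, h1, h2⟩ := key e he
  obtain ⟨u', i', rfl, hi', h1', h2'⟩ := key f hf
  have : i = i' := by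
    rw [hi] at hi'
    exact Set.singleton_injective hi'
  subst this
  have h3 : u i = u' i := by
    rw [← h2'] at h2
    exact Sym2.congr_right.1 h2
  have h4 : u = u' := by
    rw [← Fin.insertNth_self_removeNth i u, ← Fin.insertNth_self_removeNth i u', ← h1, ← h1', h3]
  rw [h4]

open Classical in
lemma count_ne_one {p : Fin (N + 1) × (Fin N → Fin q) → Fin q × Fin q} (i : Fin (N + 1)) :
    ∀ {x y : Fin (N + 1) → Fin q} (w : (gr p).Walk x y),
      ((w.edges.filter (fun e => decide (i ∈ col e))).length = 0 → x i = y i) ∧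
      ((w.edges.filter (fun e => decide (i ∈ col e))).length = 1 → x i ≠ y i) := by
  intro x y w
  induction w with
  | nil => simp
  | cons h w ih =>
    rename_i x' y' z'
    rw [SimpleGraph.Walk.edges_cons, List.filter_cons]
    by_cases hc : i ∈ col s(x', y')
    · have hd : x' i ≠ y' i := hc
      simp only [hc, decide_true, if_true, List.length_cons]
      constructor
      · intro h0; omega
      · intro h1
        have := ih.1 (by omega)
        rw [← this]
        exact hd
    · have hd : x' i = y' i := by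
        by_contra hne
        exact hc hne
      simp only [hc, decide_false, Bool.false_eq_true, if_false]
      rw [hd]
      exact ih

open Classical in
lemma lonely (p : Fin (N + 1) × (Fin N → Fin q) → Fin q × Fin q) :
    NoLonelyColour (gr p) (col (N := N) (q := q)) := by
  intro v w hw e he
  have hedge : e ∈ (gr p).edgeSet := w.edges_subset_edgeSet he
  obtain ⟨i, hi⟩ : ∃ i, col e = {i} := by
    induction e using Sym2.ind with
    | _ x y =>
      rw [SimpleGraph.mem_edgeSet] at hedge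
      obtain ⟨i, h4, _, _⟩ := adj_col hedge
      exact ⟨i, h4⟩
  have hnd : w.edges.Nodup := hw.edges_nodup
  obtain ⟨L, hL⟩ : ∃ L, L = w.edges.filter (fun e => decide (i ∈ col e)) := ⟨_, rfl⟩
  have heL : e ∈ L := by
    rw [hL, List.mem_filter]
    exact ⟨he, by simp [hi]⟩
  have hc := count_ne_one i w
  have hlen : 1 < L.length := by
    have h1 : L.length ≠ 1 := by
      intro h1
      rw [hL] at h1
      exact hc.2 h1 rfl
    have h0 : L.length ≠ 0 := by
      intro h0
      rw [List.length_eq_zero_iff] at h0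
      rw [h0] at heL
      simp at heL
    omega
  have hLnd : L.Nodup := by rw [hL]; exact hnd.filter _
  have hcard : 1 < L.toFinset.card := by
    rw [List.toFinset_card_of_nodup hLnd]
    exact hlen
  obtain ⟨f, hf, hfe⟩ := Finset.exists_mem_ne hcard e
  rw [List.mem_toFinset, hL, List.mem_filter] at hf
  refine ⟨f, hf.1, hfe, ?_⟩
  have hfedge : f ∈ (gr p).edgeSet := w.edges_subset_edgeSet hf.1
  obtain ⟨j, hj⟩ : ∃ j, col f = {j} := by
    induction f using Sym2.ind with
    | _ x y =>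
      rw [SimpleGraph.mem_edgeSet] at hfedge
      obtain ⟨i, h4, _, _⟩ := adj_col hfedge
      exact ⟨i, h4⟩
  have h5 : i ∈ col f := by simpa using hf.2
  rw [hj, Set.mem_singleton_iff] at h5
  rw [hi, hj, h5]

/-- counting: some choice defeats all colourings -/
lemma exists_choice (k : ℕ) (hk : 1 ≤ k) : ∃ (N : ℕ)
    (p : Fin (N + 1) × (Fin N → Fin (k + 1)) → Fin (k + 1) × Fin (k + 1)),
    ¬ (gr p).Colorable k := by
  classical
  obtain ⟨Q, hQ⟩ : ∃ Q : ℕ, Q = (k + 1) * (k + 1) := ⟨_, rfl⟩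
  have hQ2 : 2 ≤ Q := by rw [hQ]; nlinarith
  obtain ⟨N, hN⟩ : ∃ N : ℕ, k ^ (k + 1) * (Q - 1) ^ (N + 1) < Q ^ (N + 1) := by
    have hr : (1 : ℝ) < (Q : ℝ) / ((Q - 1 : ℕ) : ℝ) := by
      rw [one_lt_div (by
        have : 0 < Q - 1 := by omega
        exact_mod_cast this)]
      have : Q - 1 < Q := by omega
      exact_mod_cast this
    obtain ⟨N, hN⟩ := pow_unbounded_of_one_lt ((k : ℝ) ^ (k + 1)) hr
    refine ⟨N, ?_⟩
    have h1 : (k : ℝ) ^ (k + 1) < ((Q : ℝ) / ((Q - 1 : ℕ) : ℝ)) ^ (N + 1) :=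
      lt_of_lt_of_le hN (pow_le_pow_right₀ hr.le (by omega))
    rw [div_pow, lt_div_iff₀ (by
      have : 0 < Q - 1 := by omega
      have : (0 : ℝ) < ((Q - 1 : ℕ) : ℝ) := by exact_mod_cast this
      positivity)] at h1
    exact_mod_cast h1
  refine ⟨N, ?_⟩
  by_contra hcon
  push Not at hcon
  -- good choices for a colouring
  obtain ⟨good, hgood⟩ : ∃ good : ((Fin (N + 1) → Fin (k + 1)) → Fin k) →
      Finset (Fin (N + 1) × (Fin N → Fin (k + 1)) → Fin (k + 1) × Fin (k + 1)),
      good = fun f => Fintype.piFinset (fun l : Fin (N + 1) × (Fin N → Fin (k + 1)) =>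
        Finset.univ.filter (fun ab : Fin (k + 1) × Fin (k + 1) =>
          ab.1 ≠ ab.2 → f (l.1.insertNth ab.1 l.2) ≠ f (l.1.insertNth ab.2 l.2))) := ⟨_, rfl⟩
  have hcover : ∀ p : Fin (N + 1) × (Fin N → Fin (k + 1)) → Fin (k + 1) × Fin (k + 1),
      ∃ f, p ∈ good f := by
    intro p
    obtain ⟨f⟩ := hcon p
    refine ⟨f, ?_⟩
    rw [hgood]
    simp only [Fintype.mem_piFinset, Finset.mem_filter, Finset.mem_univ, true_and]
    rintro ⟨i, y⟩ hne
    apply f.valid
    have e1 : i.removeNth (i.insertNth (p (i, y)).1 y : Fin (N + 1) → Fin (k + 1)) = y := by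
      funext j
      simp [Fin.removeNth]
    have e2 : i.removeNth (i.insertNth (p (i, y)).2 y : Fin (N + 1) → Fin (k + 1)) = y := by
      funext j
      simp [Fin.removeNth]
    refine ⟨?_, i, ?_, ?_⟩
    · intro h
      apply hne
      have := congrFun h i
      simpa using this
    · exact e1.trans e2.symm
    · simp only [Fin.insertNth_apply_same]
      rw [e1]
  have hsize : ∀ f, (good f).card ≤ (Q - 1) ^ ((N + 1) * (k + 1) ^ N) := by
    intro f
    rw [hgood]
    simp only
    rw [Fintype.card_piFinset]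
    have hI : Fintype.card (Fin (N + 1) × (Fin N → Fin (k + 1))) = (N + 1) * (k + 1) ^ N := by
      simp
    rw [← hI, ← Finset.card_univ]
    apply Finset.prod_le_pow_card
    rintro ⟨i, y⟩ -
    -- a monochromatic pair
    obtain ⟨a, b, hab, hf⟩ := Fintype.exists_ne_map_eq_of_card_lt
      (fun a : Fin (k + 1) => f (i.insertNth a y)) (by simp)
    have hlt : (Finset.univ.filter (fun ab : Fin (k + 1) × Fin (k + 1) =>
          ab.1 ≠ ab.2 → f (i.insertNth ab.1 y) ≠ f (i.insertNth ab.2 y))).card <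
          (Finset.univ : Finset (Fin (k + 1) × Fin (k + 1))).card := by
      apply Finset.card_lt_card
      rw [Finset.ssubset_iff_of_subset (Finset.filter_subset _ _)]
      refine ⟨(a, b), Finset.mem_univ _, ?_⟩
      simp only [Finset.mem_filter, Finset.mem_univ, true_and]
      intro h
      exact h hab hf
    have hcQ : (Finset.univ : Finset (Fin (k + 1) × Fin (k + 1))).card = Q := by
      rw [hQ]; simp
    rw [hcQ] at hlt
    exact Nat.le_sub_one_of_lt hlt
  have htotal : Fintype.card (Fin (N + 1) × (Fin N → Fin (k + 1)) → Fin (k + 1) × Fin (k + 1)) ≤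
      ∑ f : ((Fin (N + 1) → Fin (k + 1)) → Fin k), (good f).card := by
    rw [← Finset.card_univ]
    refine le_trans (Finset.card_le_card ?_) Finset.card_biUnion_le
    intro p _
    rw [Finset.mem_biUnion]
    obtain ⟨f, hf⟩ := hcover p
    exact ⟨f, Finset.mem_univ _, hf⟩
  have h1 : ∑ f : ((Fin (N + 1) → Fin (k + 1)) → Fin k), (good f).card ≤
      k ^ ((k + 1) ^ (N + 1)) * (Q - 1) ^ ((N + 1) * (k + 1) ^ N) := by
    refine le_trans (Finset.sum_le_card_nsmul _ _ _ (fun f _ => hsize f)) ?_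
    rw [Finset.card_univ, smul_eq_mul]
    simp
  have h2 : Fintype.card (Fin (N + 1) × (Fin N → Fin (k + 1)) → Fin (k + 1) × Fin (k + 1)) =
      Q ^ ((N + 1) * (k + 1) ^ N) := by
    rw [hQ]; simp
  rw [h2] at htotal
  have h3 : k ^ ((k + 1) ^ (N + 1)) * (Q - 1) ^ ((N + 1) * (k + 1) ^ N) =
      (k ^ (k + 1) * (Q - 1) ^ (N + 1)) ^ ((k + 1) ^ N) := by
    rw [mul_pow, ← pow_mul, ← pow_mul, pow_succ (k + 1) N, mul_comm ((k + 1) ^ N) (k + 1)]
  have h4 : Q ^ ((N + 1) * (k + 1) ^ N) = (Q ^ (N + 1)) ^ ((k + 1) ^ N) := by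
    rw [pow_mul]
  have h5 := htotal.trans h1
  rw [h3, h4] at h5
  have h6 : (k ^ (k + 1) * (Q - 1) ^ (N + 1)) ^ ((k + 1) ^ N) < (Q ^ (N + 1)) ^ ((k + 1) ^ N) :=
    Nat.pow_lt_pow_left hN (by positivity)
  omega

end construction

/-- No finite bound on the chromatic number holds for no lonely colour graphs, nor for
no pied circuit graphs (finite examples). -/
theorem result : ∀ m : ℕ, ∃ (V : Type) (_ : Fintype V) (G : SimpleGraph V),
    IsNoLonelyColourGraph G ∧ IsNoPiedCircuitGraph G ∧ ¬ G.Colorable m := by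
  intro m
  obtain ⟨N, p, hp⟩ := exists_choice (m + 1) (by omega)
  refine ⟨Fin (N + 1) → Fin (m + 1 + 1), inferInstance, gr p,
    ⟨_, col, two p, lonely p⟩, ⟨_, col, two p, ?_⟩, ?_⟩
  · intro v w hw
    have hne : w.edges ≠ [] := by
      intro h
      have := hw.three_le_length
      rw [← SimpleGraph.Walk.length_edges, h] at this
      simp at this
    obtain ⟨e, he⟩ := List.exists_mem_of_ne_nil _ hne
    obtain ⟨f, hf⟩ := lonely p v w hw e he
    exact ⟨e, he, f, hf⟩
  · intro h
    exact hp (h.mono (by omega))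

end Pool.Agent.Results.MP_2f2576_co.NoLonely
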